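import Pool.Agent.Q83.Stft.Main

/-!
# No lattice has finite deficiency

The definitions (in `Q83.Stft.Defs`): `stft g f x ω` is the short-time Fourier transform
`∫ f(t) conj(g(t-x)) exp(-2 π i ω t) dt`, `lattice A` is the set `A ℤ²`, and `Uniqueness g Λ` says
that for `f, h` in `L²` the equality of `|V_g f|` and `|V_g h|` on `Λ` implies that `f = e^{i α} h`
almost everywhere for some real `α`.
-/

set_option autoImplicit false
open MeasureTheory Q83.Stft

namespace Pool.Agent.Results.MP_19ca7b_an.NoFiniteDeficiency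

theorem result (g : ℝ → ℂ) (hg : MemLp g 2 volume) (A : Matrix (Fin 2) (Fin 2) ℝ) (hA : A.det ≠ 0)
    (P : Set (ℝ × ℝ)) (hP : P.Finite) : ¬ Uniqueness g (lattice A ∪ P) :=
  no_uniqueness g hg A hA P hP

end Pool.Agent.Results.MP_19ca7b_an.NoFiniteDeficiency
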